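import Pool.Agent.V5helper66.LD.Stm

set_option autoImplicit false

/-!
Project LD, job ANA: Riesz product duality for the discrepancy of lattice point sets.
-/

open Finset MeasureTheory

namespace V5LD.Ana

/-- Lebesgue measure on `(0, 1]` -/
noncomputable def mu0 : Measure ℝ := volume.restrict (Set.Ioc 0 1)

instance : IsProbabilityMeasure mu0 := ⟨by simp [mu0]⟩

/-- the product measure -/
noncomputable def mu (d : ℕ) : Measure (Fin d → ℝ) := Measure.pi (fun _ => mu0)

instance (d : ℕ) : IsProbabilityMeasure (mu d) := by unfold mu; infer_instance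

/-- `e(t)` -/
noncomputable def ee (t : ℝ) : ℂ := Complex.exp (2 * Real.pi * Complex.I * t)

lemma ee_add (s t : ℝ) : ee (s + t) = ee s * ee t := by
  rw [ee, ee, ee, ← Complex.exp_add]
  push_cast
  ring_nf

lemma ee_zero : ee 0 = 1 := by simp [ee]

lemma ee_int (n : ℤ) : ee n = 1 := by
  rw [ee, Complex.exp_eq_one_iff]
  exact ⟨n, by push_cast; ring⟩

lemma norm_ee (t : ℝ) : ‖ee t‖ = 1 := by
  rw [ee, show (2 * Real.pi * Complex.I * t : ℂ) = ((2 * Real.pi * t : ℝ) : ℂ) * Complex.I by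
    push_cast; ring, Complex.norm_exp_ofReal_mul_I]

lemma conj_ee (t : ℝ) : (starRingEnd ℂ) (ee t) = ee (-t) := by
  rw [ee, ee, ← Complex.exp_conj]
  congr 1
  simp only [map_mul, Complex.conj_I, Complex.conj_ofReal, map_ofNat]
  push_cast
  ring

lemma continuous_ee : Continuous ee := by unfold ee; fun_prop

lemma ee_fract (g : ℤ) (y : ℝ) : ee (g * Int.fract y) = ee (g * y) := by
  have h : (g : ℝ) * Int.fract y = g * y + ((-(g * ⌊y⌋) : ℤ) : ℝ) := by
    rw [← Int.self_sub_floor]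
    push_cast
    ring
  rw [h, ee_add, ee_int, mul_one]

/-! ### one variable -/

lemma integ0 {f : ℝ → ℂ} (hf : Measurable f) (C : ℝ) (hC : ∀ x, ‖f x‖ ≤ C) : Integrable f mu0 :=
  Integrable.of_bound hf.aestronglyMeasurable C (Filter.Eventually.of_forall hC)

lemma integ0r {f : ℝ → ℝ} (hf : Measurable f) (C : ℝ) (hC : ∀ x, ‖f x‖ ≤ C) : Integrable f mu0 :=
  Integrable.of_bound hf.aestronglyMeasurable C (Filter.Eventually.of_forall hC)

lemma int_mu0 {E : Type*} [NormedAddCommGroup E] [NormedSpace ℝ E] (f : ℝ → E) :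
    ∫ x, f x ∂mu0 = ∫ x in (0 : ℝ)..1, f x := by
  rw [intervalIntegral.integral_of_le zero_le_one, mu0]

/-- the coefficient -/
noncomputable def kap (g : ℤ) : ℂ := -1 / (2 * Real.pi * Complex.I * g)

lemma norm_kap (g : ℤ) : ‖kap g‖ = 1 / (2 * Real.pi * |(g : ℝ)|) := by
  rw [kap, norm_div, norm_neg, norm_one]
  congr 1
  simp only [Complex.norm_mul, Complex.norm_I, mul_one, Complex.norm_ofNat, Complex.norm_real,
    Complex.norm_intCast, Real.norm_eq_abs, abs_of_pos Real.pi_pos]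

lemma kap_neg (g : ℤ) : kap (-g) = (starRingEnd ℂ) (kap g) := by
  rw [kap, kap]
  simp only [map_div₀, map_neg, map_one, map_mul, Complex.conj_I, Complex.conj_ofReal, map_ofNat,
    map_intCast]
  push_cast
  congr 1
  ring

lemma int_ee (g : ℤ) (hg : g ≠ 0) : ∫ z, ee (g * z) ∂mu0 = 0 := by
  rw [int_mu0]
  have hgc : (2 * Real.pi * Complex.I * g : ℂ) ≠ 0 := by
    simp [hg, Real.pi_ne_zero]
  have hd : ∀ x ∈ Set.uIcc (0 : ℝ) 1, HasDerivAt
      (fun u : ℝ => ee (g * u) / (2 * Real.pi * Complex.I * g)) (ee (g * x)) x := by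
    intro x _
    have h1 : HasDerivAt (fun u : ℝ => (2 * Real.pi * Complex.I * g * (u : ℂ)))
        (2 * Real.pi * Complex.I * g) x := by
      simpa using (Complex.ofRealCLM.hasDerivAt (x := x)).const_mul (2 * Real.pi * Complex.I * g : ℂ)
    have h2 := (h1.cexp).div_const (2 * Real.pi * Complex.I * g : ℂ)
    have h3 : ∀ u : ℝ, ee (g * u) = Complex.exp (2 * Real.pi * Complex.I * g * (u : ℂ)) := by
      intro u
      rw [ee]
      congr 1
      push_cast
      ring
    simp only [h3]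
    refine h2.congr_deriv ?_
    field_simp
  rw [intervalIntegral.integral_eq_sub_of_hasDerivAt hd
    ((continuous_ee.comp (continuous_const.mul continuous_id)).intervalIntegrable _ _)]
  have h1 : ee (g * (1 : ℝ)) = 1 := by
    rw [mul_one]
    exact ee_int g
  rw [h1, mul_zero, ee_zero, sub_self]

lemma int_lin (g : ℤ) (hg : g ≠ 0) :
    ∫ u in (0 : ℝ)..1, (((1 - u : ℝ) : ℂ)) * ee (g * u) = kap g := by
  have hgc : (2 * Real.pi * Complex.I * g : ℂ) ≠ 0 := by
    simp [hg, Real.pi_ne_zero]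
  have h3 : ∀ u : ℝ, ee (g * u) = Complex.exp (2 * Real.pi * Complex.I * g * (u : ℂ)) := by
    intro u
    rw [ee]
    congr 1
    push_cast
    ring
  have hd : ∀ x ∈ Set.uIcc (0 : ℝ) 1, HasDerivAt
      (fun u : ℝ => ((1 - u : ℝ) : ℂ) * (ee (g * u) / (2 * Real.pi * Complex.I * g)) +
        ee (g * u) / (2 * Real.pi * Complex.I * g) ^ 2) (((1 - x : ℝ) : ℂ) * ee (g * x)) x := by
    intro x _
    have h1 : HasDerivAt (fun u : ℝ => (2 * Real.pi * Complex.I * g * (u : ℂ)))
        (2 * Real.pi * Complex.I * g) x := by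
      simpa using (Complex.ofRealCLM.hasDerivAt (x := x)).const_mul (2 * Real.pi * Complex.I * g : ℂ)
    have h2 := (h1.cexp).div_const (2 * Real.pi * Complex.I * g : ℂ)
    have h4 := (h1.cexp).div_const ((2 * Real.pi * Complex.I * g : ℂ) ^ 2)
    have h5 : HasDerivAt (fun u : ℝ => ((1 - u : ℝ) : ℂ)) (-1) x := by
      have := ((hasDerivAt_const x (1 : ℝ)).sub (hasDerivAt_id x)).ofReal_comp
      simpa using this
    have h6 := (h5.mul h2).add h4
    simp only [h3]
    refine h6.congr_deriv ?_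
    field_simp
    ring
  rw [intervalIntegral.integral_eq_sub_of_hasDerivAt hd
    (((Complex.continuous_ofReal.comp (continuous_const.sub continuous_id)).mul
      (continuous_ee.comp (continuous_const.mul continuous_id))).intervalIntegrable _ _)]
  have h1 : ee (g * (1 : ℝ)) = 1 := by
    rw [mul_one]
    exact ee_int g
  rw [h1, mul_zero, ee_zero, kap]
  push_cast
  field_simp
  ring

lemma meas_fr : Measurable (fun u : ℝ => Int.fract u) := measurable_fract

/-- shift of a periodic function -/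
lemma int_shift (g : ℤ) (x : ℝ) :
    ∫ z, ((1 - Int.fract (x + z) : ℝ) : ℂ) * ee (g * z) ∂mu0 =
      ee (-(g * x)) * ∫ u in (0 : ℝ)..1, ((1 - u : ℝ) : ℂ) * ee (g * u) := by
  have hper : Function.Periodic (fun u : ℝ => ((1 - Int.fract u : ℝ) : ℂ) * ee (g * u)) 1 := by
    intro u
    simp only [Int.fract_add_one]
    rw [mul_add, ee_add, mul_one, ee_int, mul_one]
  have h1 : ∀ z : ℝ, ((1 - Int.fract (x + z) : ℝ) : ℂ) * ee (g * z) =
      ee (-(g * x)) * (((1 - Int.fract (x + z) : ℝ) : ℂ) * ee (g * (x + z))) := by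
    intro z
    have : ee (g * z) = ee (-(g * x)) * ee (g * (x + z)) := by
      rw [← ee_add]
      congr 1
      ring
    rw [this]
    ring
  simp_rw [h1]
  rw [integral_const_mul, int_mu0]
  congr 1
  rw [intervalIntegral.integral_comp_add_left
    (fun u : ℝ => ((1 - Int.fract u : ℝ) : ℂ) * ee (g * u)) x, add_zero]
  have h2 := hper.intervalIntegral_add_eq x 0
  rw [zero_add] at h2
  rw [h2]
  refine intervalIntegral.integral_congr_ae ?_
  have h3 : ∀ᵐ u : ℝ, u ≠ 1 := by
    rw [ae_iff]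
    simp
  filter_upwards [h3] with u hu hu2
  rw [Set.uIoc_of_le zero_le_one] at hu2
  rw [Int.fract_eq_self.2 ⟨hu2.1.le, lt_of_le_of_ne hu2.2 hu⟩]

lemma int_half : ∫ u in (0 : ℝ)..1, ((1 - u : ℝ) : ℂ) * ee ((0 : ℤ) * u) = 1 / 2 := by
  have h : ∀ u : ℝ, ((1 - u : ℝ) : ℂ) * ee ((0 : ℤ) * u) = ((1 - u : ℝ) : ℂ) := by
    intro u
    simp [ee_zero]
  simp_rw [h]
  rw [intervalIntegral.integral_ofReal]
  have h2 : ∫ u in (0 : ℝ)..1, (1 - u) = 1 / 2 := by
    rw [intervalIntegral.integral_sub (by simp) (by simp), intervalIntegral.integral_const, integral_id]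
    norm_num
  rw [h2]
  norm_num

lemma int_fr : ∫ s, Int.fract s ∂mu0 = 1 / 2 := by
  rw [int_mu0]
  have h3 : ∀ᵐ u : ℝ, u ≠ 1 := by
    rw [ae_iff]
    simp
  have h4 : ∫ u in (0 : ℝ)..1, Int.fract u = ∫ u in (0 : ℝ)..1, u := by
    refine intervalIntegral.integral_congr_ae ?_
    filter_upwards [h3] with u hu hu2
    rw [Set.uIoc_of_le zero_le_one] at hu2
    rw [Int.fract_eq_self.2 ⟨hu2.1.le, lt_of_le_of_ne hu2.2 hu⟩]
  rw [h4, integral_id]
  norm_num

lemma int_ind (y : ℝ) (hy0 : 0 ≤ y) (hy1 : y < 1) :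
    ∫ s, (if y < Int.fract s then (1 : ℝ) else 0) ∂mu0 = 1 - y := by
  have h3 : ∀ᵐ u : ℝ ∂(volume.restrict (Set.Ioc (0 : ℝ) 1)), u ≠ 1 := by
    apply ae_restrict_of_ae
    rw [ae_iff]
    simp
  have h4 : (fun s => if y < Int.fract s then (1 : ℝ) else 0) =ᵐ[mu0]
      (Set.Ioc y 1).indicator (fun _ => (1 : ℝ)) := by
    rw [mu0]
    filter_upwards [h3, ae_restrict_mem measurableSet_Ioc] with u hu hu2
    rw [Int.fract_eq_self.2 ⟨hu2.1.le, lt_of_le_of_ne hu2.2 hu⟩, Set.indicator_apply]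
    by_cases h : y < u
    · rw [if_pos h, if_pos ⟨h, hu2.2⟩]
    · rw [if_neg h, if_neg (fun h' => h h'.1)]
  rw [integral_congr_ae h4, integral_indicator measurableSet_Ioc, mu0,
    Measure.restrict_restrict measurableSet_Ioc]
  have h5 : Set.Ioc y 1 ∩ Set.Ioc 0 1 = Set.Ioc y 1 := by
    apply Set.inter_eq_left.2
    exact Set.Ioc_subset_Ioc_left hy0
  rw [h5]
  simp [Real.volume_real_Ioc, hy1.le]

/-! ### the bound of `F` -/

/-- lower end of the pieces of a shifted interval -/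
noncomputable def lo (z : ℝ) (b : Bool) : ℝ := if b then 1 - z else 0

/-- upper end -/
noncomputable def hi (z s : ℝ) (b : Bool) : ℝ := if b then min 1 (1 - z + s) else max (s - z) 0

lemma lohi (z s : ℝ) (b : Bool) (hz0 : 0 ≤ z) (hz1 : z < 1) (hs0 : 0 ≤ s) (hs1 : s < 1) :
    0 ≤ lo z b ∧ lo z b ≤ hi z s b ∧ hi z s b ≤ 1 := by
  cases b
  · simp only [lo, hi, Bool.false_eq_true, if_false, le_refl, true_and]
    exact ⟨le_max_right _ _, max_le (by linarith) zero_le_one⟩
  · simp only [lo, hi, if_true]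
    exact ⟨by linarith, le_min (by linarith) (by linarith), min_le_left _ _⟩

lemma len_sum (z s : ℝ) :
    s = ∑ b : Bool, (hi z s b - lo z b) := by
  rw [Fintype.sum_bool]
  simp only [lo, hi, Bool.false_eq_true, if_false, if_true]
  rcases le_total s z with h | h
  · rw [max_eq_right (by linarith), min_eq_right (by linarith)]
    ring
  · rw [max_eq_left (by linarith), min_eq_left (by linarith)]
    ring

lemma ind_sum (x z s : ℝ) (hx0 : 0 ≤ x) (hx1 : x < 1) (hz0 : 0 ≤ z) (hz1 : z < 1)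
    (hs1 : s < 1) : (if Int.fract (x + z) < s then (1 : ℝ) else 0) =
      ∑ b : Bool, (if lo z b ≤ x ∧ x < hi z s b then (1 : ℝ) else 0) := by
  rw [Fintype.sum_bool]
  simp only [lo, hi, Bool.false_eq_true, if_false, if_true]
  rcases lt_or_ge (x + z) 1 with h | h
  · rw [Int.fract_eq_self.2 ⟨by linarith, h⟩]
    have h1 : ¬ (1 - z ≤ x ∧ x < min 1 (1 - z + s)) := fun h' => by linarith [h'.1]
    rw [if_neg h1, zero_add]
    by_cases h2 : x + z < s
    · rw [if_pos h2, if_pos ⟨hx0, lt_max_of_lt_left (by linarith)⟩]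
    · rw [if_neg h2, if_neg]
      rintro ⟨_, h3⟩
      rcases lt_max_iff.1 h3 with h4 | h4 <;> linarith
  · have h0 : Int.fract (x + z) = x + z - 1 := by
      rw [Int.fract_eq_iff]
      exact ⟨by linarith, by linarith, 1, by push_cast; ring⟩
    rw [h0]
    have h1 : ¬ (0 ≤ x ∧ x < max (s - z) 0) := by
      rintro ⟨_, h3⟩
      rcases lt_max_iff.1 h3 with h4 | h4 <;> linarith
    rw [if_neg h1, add_zero]
    by_cases h2 : x + z - 1 < s
    · rw [if_pos h2, if_pos ⟨by linarith, lt_min hx1 (by linarith)⟩]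
    · rw [if_neg h2, if_neg]
      rintro ⟨_, h3⟩
      have := (lt_min_iff.1 h3).2
      linarith

/-- the discrepancy of a shifted box -/
noncomputable def Del {d : ℕ} (N : ℕ) (a : Fin d → ℕ) (z s : Fin d → ℝ) : ℝ :=
  (1 / (N : ℝ)) * ∑ m ∈ range N, ∏ i, (if Int.fract (pt N a m i + z i) < Int.fract (s i) then (1 : ℝ) else 0)
    - ∏ i, Int.fract (s i)

lemma Del_le {d N : ℕ} {a : Fin d → ℕ} {D : ℝ} (hD : DiscLE N a D) (z s : Fin d → ℝ) :
    |Del N a z s| ≤ 2 ^ d * D := by
  classical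
  set z' : Fin d → ℝ := fun i => Int.fract (z i) with hz'
  set s' : Fin d → ℝ := fun i => Int.fract (s i) with hs'
  have hfr : ∀ m i, Int.fract (pt N a m i + z i) = Int.fract (pt N a m i + z' i) := by
    intro m i
    have : pt N a m i + z i = pt N a m i + z' i + (⌊z i⌋ : ℤ) := by
      rw [hz']
      simp only [← Int.self_sub_floor]
      ring
    rw [this, Int.fract_add_intCast]
  have hx0 : ∀ m i, 0 ≤ pt N a m i := fun m i => Int.fract_nonneg _
  have hx1 : ∀ m i, pt N a m i < 1 := fun m i => Int.fract_lt_one _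
  have e1 : ∀ m, ∏ i, (if Int.fract (pt N a m i + z i) < Int.fract (s i) then (1 : ℝ) else 0) =
      ∑ t : Fin d → Bool, ∏ i, (if lo (z' i) (t i) ≤ pt N a m i ∧ pt N a m i < hi (z' i) (s' i) (t i)
        then (1 : ℝ) else 0) := by
    intro m
    have : ∀ i, (if Int.fract (pt N a m i + z i) < Int.fract (s i) then (1 : ℝ) else 0) =
        ∑ b : Bool, (if lo (z' i) b ≤ pt N a m i ∧ pt N a m i < hi (z' i) (s' i) b then (1 : ℝ) else 0) := by
      intro i
      rw [hfr]
      exact ind_sum _ _ _ (hx0 m i) (hx1 m i) (Int.fract_nonneg _) (Int.fract_lt_one _)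
        (Int.fract_lt_one _)
    simp_rw [this]
    rw [Finset.prod_univ_sum, Fintype.piFinset_univ]
  have e2 : ∏ i, Int.fract (s i) = ∑ t : Fin d → Bool, ∏ i, (hi (z' i) (s' i) (t i) - lo (z' i) (t i)) := by
    have : ∀ i, Int.fract (s i) = ∑ b : Bool, (hi (z' i) (s' i) b - lo (z' i) b) := fun i =>
      len_sum _ _
    rw [Finset.prod_congr rfl fun i _ => this i, Finset.prod_univ_sum, Fintype.piFinset_univ]
  have e3 : Del N a z s = ∑ t : Fin d → Bool,
      ((((range N).filter (fun m => ∀ i, lo (z' i) (t i) ≤ pt N a m i ∧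
        pt N a m i < hi (z' i) (s' i) (t i))).card : ℝ) / N - ∏ i, (hi (z' i) (s' i) (t i) - lo (z' i) (t i))) := by
    rw [Del, e2, Finset.sum_sub_distrib]
    congr 1
    simp_rw [e1]
    rw [Finset.sum_comm, Finset.mul_sum]
    refine Finset.sum_congr rfl fun t _ => ?_
    rw [Finset.card_filter]
    push_cast
    rw [one_div, div_eq_inv_mul]
    congr 1
    refine Finset.sum_congr rfl fun m _ => ?_
    rw [Finset.prod_ite_zero]
    simp
  rw [e3]
  refine (Finset.abs_sum_le_sum_abs _ _).trans ?_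
  have h4 : ∀ t ∈ (univ : Finset (Fin d → Bool)),
      |((((range N).filter (fun m => ∀ i, lo (z' i) (t i) ≤ pt N a m i ∧
        pt N a m i < hi (z' i) (s' i) (t i))).card : ℝ) / N - ∏ i, (hi (z' i) (s' i) (t i) - lo (z' i) (t i)))|
        ≤ D := by
    intro t _
    have h := hD (fun i => lo (z' i) (t i)) (fun i => hi (z' i) (s' i) (t i)) (fun i =>
      lohi _ _ _ (Int.fract_nonneg _) (Int.fract_lt_one _) (Int.fract_nonneg _) (Int.fract_lt_one _))
    rw [ldisc] at h
    convert h using 6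
  refine (Finset.sum_le_card_nsmul _ _ _ h4).trans (le_of_eq ?_)
  rw [nsmul_eq_mul, Finset.card_univ, Fintype.card_fun, Fintype.card_bool, Fintype.card_fin]
  push_cast
  ring

/-- the function `F` -/
noncomputable def FF {d : ℕ} (N : ℕ) (a : Fin d → ℕ) (z : Fin d → ℝ) : ℝ :=
  (1 / (N : ℝ)) * ∑ m ∈ range N, ∏ i, (1 - Int.fract (pt N a m i + z i)) - ∏ _i : Fin d, (1 / 2 : ℝ)

lemma FF_le {d N : ℕ} {a : Fin d → ℕ} {D : ℝ} (hD : DiscLE N a D) (z : Fin d → ℝ) :
    |FF N a z| ≤ 2 ^ d * D := by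
  have hi1 : ∀ m, Integrable (fun s : Fin d → ℝ => ∏ i, (if Int.fract (pt N a m i + z i) < Int.fract (s i) then (1 : ℝ) else 0))
      (mu d) := by
    intro m
    refine Integrable.fintype_prod (f := fun i s => if Int.fract (pt N a m i + z i) < Int.fract s then (1 : ℝ) else 0)
      fun i => integ0r ?_ 1 ?_
    · exact Measurable.ite (measurableSet_lt measurable_const meas_fr) measurable_const measurable_const
    · intro x
      split_ifs <;> simp
  have hi2 : Integrable (fun s : Fin d → ℝ => ∏ i, Int.fract (s i)) (mu d) := by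
    refine Integrable.fintype_prod (f := fun _ s => Int.fract s) fun i => integ0r meas_fr 1 ?_
    intro x
    rw [Real.norm_eq_abs, abs_of_nonneg (Int.fract_nonneg _)]
    exact (Int.fract_lt_one _).le
  have h1 : FF N a z = ∫ s, Del N a z s ∂(mu d) := by
    unfold Del
    rw [integral_sub ((integrable_finsetSum _ fun m _ => hi1 m).const_mul _) hi2, integral_const_mul,
      integral_finsetSum _ fun m _ => hi1 m]
    rw [FF]
    congr 1
    · congr 1
      refine Finset.sum_congr rfl fun m _ => ?_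
      rw [mu, integral_fintype_prod_eq_prod (f := fun i s => if Int.fract (pt N a m i + z i) < Int.fract s then (1 : ℝ) else 0)]
      exact Finset.prod_congr rfl fun i _ => (int_ind _ (Int.fract_nonneg _) (Int.fract_lt_one _)).symm
    · rw [mu, integral_fintype_prod_eq_prod (f := fun _ s => Int.fract s)]
      exact Finset.prod_congr rfl fun i _ => int_fr.symm
  rw [h1]
  have h2 := norm_integral_le_of_norm_le_const (μ := mu d) (f := Del N a z) (C := 2 ^ d * D)
    (Filter.Eventually.of_forall fun s => by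
      rw [Real.norm_eq_abs]
      exact Del_le hD z s)
  rw [Real.norm_eq_abs, probReal_univ, mul_one] at h2
  exact h2

/-! ### Fourier coefficients -/

/-- the character `e(g . z)` -/
noncomputable def EE {d : ℕ} (g : Fin d → ℤ) (z : Fin d → ℝ) : ℂ := ∏ i, ee (g i * z i)

lemma EE_add {d : ℕ} (g h : Fin d → ℤ) (z : Fin d → ℝ) : EE (g + h) z = EE g z * EE h z := by
  rw [EE, EE, EE, ← Finset.prod_mul_distrib]
  refine Finset.prod_congr rfl fun i _ => ?_
  rw [← ee_add]
  congr 1
  rw [Pi.add_apply]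
  push_cast
  ring

lemma EE_zero {d : ℕ} (z : Fin d → ℝ) : EE (0 : Fin d → ℤ) z = 1 := by
  simp [EE, ee_zero]

lemma EE_sum {d : ℕ} {ι : Type} (S : Finset ι) (g : ι → Fin d → ℤ) (z : Fin d → ℝ) :
    EE (∑ j ∈ S, g j) z = ∏ j ∈ S, EE (g j) z := by
  classical
  induction S using Finset.induction_on with
  | empty => simp [EE_zero]
  | insert j S hj ih => rw [Finset.sum_insert hj, Finset.prod_insert hj, EE_add, ih]

lemma norm_EE {d : ℕ} (g : Fin d → ℤ) (z : Fin d → ℝ) : ‖EE g z‖ = 1 := by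
  rw [EE, norm_prod]
  exact Finset.prod_eq_one fun i _ => norm_ee _

lemma conj_EE {d : ℕ} (g : Fin d → ℤ) (z : Fin d → ℝ) : (starRingEnd ℂ) (EE g z) = EE (-g) z := by
  rw [EE, EE, map_prod]
  refine Finset.prod_congr rfl fun i _ => ?_
  rw [conj_ee]
  congr 1
  rw [Pi.neg_apply]
  push_cast
  ring

lemma integ_EE {d : ℕ} (g : Fin d → ℤ) : Integrable (EE g) (mu d) := by
  unfold EE
  refine Integrable.fintype_prod (f := fun i z => ee (g i * z)) fun i => integ0 ?_ 1 ?_
  · exact (continuous_ee.comp (continuous_const.mul continuous_id)).measurable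
  · intro x
    exact (norm_ee _).le

lemma int_EE {d : ℕ} (hd : 0 < d) (g : Fin d → ℤ) (hg : ∀ i, g i ≠ 0) : ∫ z, EE g z ∂(mu d) = 0 := by
  unfold EE
  rw [mu, integral_fintype_prod_eq_prod (f := fun i z => ee (g i * z))]
  exact Finset.prod_eq_zero (Finset.mem_univ ⟨0, hd⟩) (int_ee _ (hg _))

/-- the Fourier coefficient of `F` -/
noncomputable def AA {d : ℕ} (g : Fin d → ℤ) : ℂ := ∏ i, kap (g i)

lemma norm_AA {d : ℕ} (g : Fin d → ℤ) : ‖AA g‖ = ∏ i, (1 / (2 * Real.pi * |(g i : ℝ)|)) := by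
  rw [AA, norm_prod]
  exact Finset.prod_congr rfl fun i _ => norm_kap _

lemma AA_neg {d : ℕ} (g : Fin d → ℤ) : AA (-g) = (starRingEnd ℂ) (AA g) := by
  rw [AA, AA, map_prod]
  exact Finset.prod_congr rfl fun i _ => kap_neg _

lemma integ_term {d : ℕ} (x : Fin d → ℝ) (g : Fin d → ℤ) :
    Integrable (fun z : Fin d → ℝ => ∏ i, (((1 - Int.fract (x i + z i) : ℝ) : ℂ) * ee (g i * z i))) (mu d) := by
  refine Integrable.fintype_prod (f := fun i z => ((1 - Int.fract (x i + z) : ℝ) : ℂ) * ee (g i * z))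
    fun i => integ0 ?_ 1 ?_
  · refine Measurable.mul ?_ (continuous_ee.comp (continuous_const.mul continuous_id)).measurable
    exact Complex.measurable_ofReal.comp (measurable_const.sub (meas_fr.comp (measurable_const.add measurable_id)))
  · intro u
    rw [norm_mul, norm_ee, mul_one, Complex.norm_real, Real.norm_eq_abs, abs_of_nonneg]
    · linarith [Int.fract_nonneg (x i + u)]
    · linarith [Int.fract_lt_one (x i + u)]

lemma FF_mul {d : ℕ} (N : ℕ) (a : Fin d → ℕ) (g : Fin d → ℤ) (z : Fin d → ℝ) :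
    (FF N a z : ℂ) * EE g z = (1 / (N : ℂ)) * ∑ m ∈ range N, ∏ i,
      (((1 - Int.fract (pt N a m i + z i) : ℝ) : ℂ) * ee (g i * z i)) - (∏ _i : Fin d, (1 / 2 : ℂ)) * EE g z := by
  rw [FF]
  push_cast
  rw [sub_mul, mul_assoc, Finset.sum_mul]
  congr 2
  refine Finset.sum_congr rfl fun m _ => ?_
  rw [EE, ← Finset.prod_mul_distrib]

lemma integ_FE {d : ℕ} (N : ℕ) (a : Fin d → ℕ) (g : Fin d → ℤ) :
    Integrable (fun z => (FF N a z : ℂ) * EE g z) (mu d) := by
  simp_rw [FF_mul]
  exact ((integrable_finsetSum _ fun m _ => integ_term _ g).const_mul _).sub ((integ_EE g).const_mul _)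

lemma int_FE {d : ℕ} {N : ℕ} {a : Fin d → ℕ} {g : Fin d → ℤ} :
    ∫ z, (FF N a z : ℂ) * EE g z ∂(mu d) = (1 / (N : ℂ)) * ∑ m ∈ range N, (∏ i,
      (ee (-(g i * pt N a m i)) * ∫ u in (0 : ℝ)..1, ((1 - u : ℝ) : ℂ) * ee (g i * u))) -
      (∏ _i : Fin d, (1 / 2 : ℂ)) * ∫ z, EE g z ∂(mu d) := by
  simp_rw [FF_mul]
  rw [integral_sub ((integrable_finsetSum _ fun m _ => integ_term _ g).const_mul _)
    ((integ_EE g).const_mul _), integral_const_mul, integral_const_mul,
    integral_finsetSum _ fun m _ => integ_term _ g]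
  congr 2
  refine Finset.sum_congr rfl fun m _ => ?_
  rw [mu, integral_fintype_prod_eq_prod
    (f := fun i z => ((1 - Int.fract (pt N a m i + z) : ℝ) : ℂ) * ee (g i * z))]
  exact Finset.prod_congr rfl fun i _ => int_shift _ _

lemma int_FE_zero {d N : ℕ} {a : Fin d → ℕ} (hN : 0 < N) :
    ∫ z, (FF N a z : ℂ) * EE (0 : Fin d → ℤ) z ∂(mu d) = 0 := by
  have hNc : (N : ℂ) ≠ 0 := by exact_mod_cast hN.ne'
  rw [int_FE]
  have h1 : ∀ m, (∏ i : Fin d, (ee (-(((0 : Fin d → ℤ) i : ℤ) * pt N a m i)) *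
      ∫ u in (0 : ℝ)..1, ((1 - u : ℝ) : ℂ) * ee (((0 : Fin d → ℤ) i : ℤ) * u))) = ∏ _i : Fin d, (1 / 2 : ℂ) := by
    intro m
    refine Finset.prod_congr rfl fun i _ => ?_
    rw [Pi.zero_apply, int_half]
    simp [ee_zero]
  rw [Finset.sum_congr rfl fun m _ => h1 m]
  have h2 : ∫ z, EE (0 : Fin d → ℤ) z ∂(mu d) = 1 := by
    simp_rw [EE_zero]
    simp
  rw [h2, Finset.sum_const, Finset.card_range, nsmul_eq_mul]
  field_simp
  ring

lemma int_FE_ne {d N : ℕ} {a : Fin d → ℕ} (hd : 0 < d) (hN : 0 < N) (g : Fin d → ℤ) (hg : ∀ i, g i ≠ 0)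
    (hdvd : (N : ℤ) ∣ ∑ i, g i * (a i : ℤ)) :
    ∫ z, (FF N a z : ℂ) * EE g z ∂(mu d) = AA g := by
  have hNc : (N : ℂ) ≠ 0 := by exact_mod_cast hN.ne'
  have hNr : (N : ℝ) ≠ 0 := by exact_mod_cast hN.ne'
  rw [int_FE, int_EE hd g hg, mul_zero, sub_zero]
  have h1 : ∀ m, (∏ i : Fin d, (ee (-(g i * pt N a m i)) *
      ∫ u in (0 : ℝ)..1, ((1 - u : ℝ) : ℂ) * ee (g i * u))) = AA g := by
    intro m
    rw [Finset.prod_mul_distrib]
    have e1 : ∏ i, ee (-(g i * pt N a m i)) = 1 := by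
      obtain ⟨k, hk⟩ := hdvd
      have e2 : ∀ i, ee (-(g i * pt N a m i)) = ee (((-g i : ℤ) : ℝ) * ((m : ℝ) * (a i : ℝ) / N)) := by
        intro i
        rw [← ee_fract, pt]
        congr 1
        push_cast
        ring
      simp_rw [e2]
      have e3 : ∀ (S : Finset (Fin d)) (f : Fin d → ℝ), ∏ i ∈ S, ee (f i) = ee (∑ i ∈ S, f i) := by
        intro S f
        classical
        induction S using Finset.induction_on with
        | empty => simp [ee_zero]
        | insert j S hj ih => rw [Finset.sum_insert hj, Finset.prod_insert hj, ee_add, ih]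
      rw [e3]
      have e4 : ∑ i, ((-g i : ℤ) : ℝ) * ((m : ℝ) * (a i : ℝ) / N) = ((-(m * k) : ℤ) : ℝ) := by
        have e5 : (∑ i, (g i : ℝ) * (a i : ℝ)) = (N : ℝ) * k := by
          have := congrArg (fun t : ℤ => (t : ℝ)) hk
          push_cast at this
          exact this
        have e6 : ∀ i, ((-g i : ℤ) : ℝ) * ((m : ℝ) * (a i : ℝ) / N) = (-(m : ℝ) / N) * ((g i : ℝ) * a i) := by
          intro i
          push_cast
          ring
        rw [Finset.sum_congr rfl fun i _ => e6 i, ← Finset.mul_sum, e5]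
        push_cast
        field_simp
      rw [e4, ee_int]
    rw [e1, one_mul, AA]
    exact Finset.prod_congr rfl fun i _ => int_lin _ (hg i)
  rw [Finset.sum_congr rfl fun m _ => h1 m, Finset.sum_const, Finset.card_range, nsmul_eq_mul]
  field_simp

/-! ### the Riesz product -/

/-- the combination of the vectors -/
def cb {d L : ℕ} (h : Fin L → Fin d → ℤ) (s : Fin L → ℤ) : Fin d → ℤ := ∑ j, s j • h j

/-- the coefficient of one factor -/
noncomputable def cf (c : ℂ) (σ : ℤ) : ℂ :=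
  if σ = 0 then 1 else (1 / 2) * (if σ = 1 then c else (starRingEnd ℂ) c)

/-- the Riesz product -/
noncomputable def GG {d L : ℕ} (h : Fin L → Fin d → ℤ) (c : Fin L → ℂ) (z : Fin d → ℝ) : ℝ :=
  ∏ j, (1 + (c j * EE (h j) z).re)

lemma GG_nonneg {d L : ℕ} (h : Fin L → Fin d → ℤ) (c : Fin L → ℂ) (hc : ∀ j, ‖c j‖ = 1) (z : Fin d → ℝ) :
    0 ≤ GG h c z := by
  refine Finset.prod_nonneg fun j _ => ?_
  have h1 : |(c j * EE (h j) z).re| ≤ 1 := by
    refine (Complex.abs_re_le_norm _).trans ?_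
    rw [norm_mul, hc, norm_EE, one_mul]
  linarith [(abs_le.1 h1).1]

lemma GG_eq {d L : ℕ} (h : Fin L → Fin d → ℤ) (c : Fin L → ℂ) (z : Fin d → ℝ) :
    (GG h c z : ℂ) = ∑ s ∈ signs L, (∏ j, cf (c j) (s j)) * EE (cb h s) z := by
  rw [GG, Complex.ofReal_prod]
  have h1 : ∀ j, ((1 + (c j * EE (h j) z).re : ℝ) : ℂ) =
      ∑ σ ∈ ({-1, 0, 1} : Finset ℤ), cf (c j) σ * EE (σ • h j) z := by
    intro j
    have h2 : ∑ σ ∈ ({-1, 0, 1} : Finset ℤ), cf (c j) σ * EE (σ • h j) z =
        cf (c j) (-1) * EE ((-1 : ℤ) • h j) z + (cf (c j) 0 * EE ((0 : ℤ) • h j) z +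
          cf (c j) 1 * EE ((1 : ℤ) • h j) z) := by
      rw [Finset.sum_insert (by decide), Finset.sum_insert (by decide), Finset.sum_singleton]
    rw [h2, neg_smul, one_smul, zero_smul, EE_zero, ← conj_EE]
    simp only [cf, if_true, one_ne_zero, if_false, neg_eq_zero,
      show ¬ ((-1 : ℤ) = 1) by decide]
    have h3 := Complex.add_conj (c j * EE (h j) z)
    rw [map_mul] at h3
    push_cast
    push_cast at h3
    linear_combination (1 / 2 : ℂ) * (-h3)
  rw [Finset.prod_congr rfl fun j _ => h1 j, Finset.prod_univ_sum]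
  refine Finset.sum_congr rfl fun s _ => ?_
  rw [Finset.prod_mul_distrib, cb, EE_sum]

lemma norm_cf (c : ℂ) (hc : ‖c‖ = 1) (σ : ℤ) : ‖cf c σ‖ = if σ ≠ 0 then 1 / 2 else 1 := by
  by_cases h : σ = 0
  · simp [cf, h]
  · rw [cf, if_neg h, if_pos h, norm_mul]
    split_ifs
    · rw [hc]
      norm_num
    · rw [RCLike.norm_conj, hc]
      norm_num

lemma norm_prod_cf {L : ℕ} (c : Fin L → ℂ) (hc : ∀ j, ‖c j‖ = 1) (s : Fin L → ℤ) :
    ‖∏ j, cf (c j) (s j)‖ = (1 / 2 : ℝ) ^ supp s := by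
  rw [norm_prod, Finset.prod_congr rfl fun j _ => norm_cf (c j) (hc j) (s j), supp,
    Finset.prod_ite, Finset.prod_const, Finset.prod_const_one, mul_one]


lemma zero_mem_signs (L : ℕ) : (0 : Fin L → ℤ) ∈ signs L := by
  rw [signs, Fintype.mem_piFinset]
  intro j
  simp

lemma cb_zero {d L : ℕ} (h : Fin L → Fin d → ℤ) : cb h (0 : Fin L → ℤ) = 0 := by
  simp [cb]

lemma cb_apply {d L : ℕ} (h : Fin L → Fin d → ℤ) (s : Fin L → ℤ) (i : Fin d) :
    cb h s i = ∑ j, s j * h j i := by
  rw [cb, Finset.sum_apply]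
  exact Finset.sum_congr rfl fun j _ => by rw [Pi.smul_apply, smul_eq_mul]

lemma cb_single {d L : ℕ} (h : Fin L → Fin d → ℤ) (j : Fin L) (σ : ℤ) :
    cb h (Pi.single j σ) = σ • h j := by
  rw [cb, Finset.sum_eq_single j]
  · rw [Pi.single_eq_same]
  · intro b _ hb
    rw [Pi.single_eq_of_ne hb, zero_smul]
  · intro hj
    exact absurd (Finset.mem_univ _) hj

lemma prod_cf_single {L : ℕ} (c : Fin L → ℂ) (j : Fin L) (σ : ℤ) :
    ∏ k, cf (c k) ((Pi.single j σ : Fin L → ℤ) k) = cf (c j) σ := by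
  rw [Finset.prod_eq_single j]
  · rw [Pi.single_eq_same]
  · intro b _ hb
    rw [Pi.single_eq_of_ne hb]
    simp [cf]
  · intro hj
    exact absurd (Finset.mem_univ _) hj

lemma supp_single {L : ℕ} (j : Fin L) (σ : ℤ) (hσ : σ ≠ 0) : supp (Pi.single j σ : Fin L → ℤ) = 1 := by
  classical
  rw [supp]
  have : (univ.filter (fun k => (Pi.single j σ : Fin L → ℤ) k ≠ 0)) = {j} := by
    ext k
    simp only [Finset.mem_filter, Finset.mem_univ, true_and, Finset.mem_singleton]
    constructor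
    · intro hk
      by_contra hne
      exact hk (Pi.single_eq_of_ne hne _)
    · rintro rfl
      rwa [Pi.single_eq_same]
  rw [this, Finset.card_singleton]

lemma single_mem_signs {L : ℕ} (j : Fin L) (σ : ℤ) (hσ : σ = 1 ∨ σ = -1) :
    (Pi.single j σ : Fin L → ℤ) ∈ signs L := by
  rw [signs, Fintype.mem_piFinset]
  intro k
  by_cases hk : k = j
  · subst hk
    rw [Pi.single_eq_same]
    rcases hσ with h | h <;> simp [h]
  · rw [Pi.single_eq_of_ne hk]
    simp

lemma supp_zero_iff {L : ℕ} (s : Fin L → ℤ) : supp s = 0 ↔ s = 0 := by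
  rw [supp, Finset.card_eq_zero, Finset.filter_eq_empty_iff]
  constructor
  · intro h
    funext j
    exact not_not.1 (h (Finset.mem_univ j))
  · rintro rfl j _
    simp

/-- the sum over vectors of support one -/
lemma sum_supp_one {L : ℕ} (f : (Fin L → ℤ) → ℂ) :
    ∑ s ∈ (signs L).filter (fun s => supp s = 1), f s =
      ∑ j : Fin L, (f (Pi.single j 1) + f (Pi.single j (-1))) := by
  classical
  have h1 : ∀ j : Fin L, f (Pi.single j 1) + f (Pi.single j (-1)) =
      ∑ σ ∈ ({1, -1} : Finset ℤ), f (Pi.single j σ) := by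
    intro j
    rw [Finset.sum_insert (by decide), Finset.sum_singleton]
  rw [Finset.sum_congr rfl fun j _ => h1 j, ← Finset.sum_product']
  symm
  refine Finset.sum_nbij (fun p => (Pi.single p.1 p.2 : Fin L → ℤ)) ?_ ?_ ?_ ?_
  · rintro ⟨j, σ⟩ hp
    simp only [Finset.mem_product, Finset.mem_univ, true_and, Finset.mem_insert,
      Finset.mem_singleton] at hp
    rw [Finset.mem_filter]
    refine ⟨single_mem_signs j σ hp, supp_single j σ ?_⟩
    rcases hp with h | h <;> rw [h] <;> decide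
  · rintro ⟨j, σ⟩ hp ⟨j', σ'⟩ hp' he
    simp only [Finset.coe_product, Set.mem_prod, Finset.mem_coe, Finset.mem_univ, true_and, Finset.mem_insert,
      Finset.mem_singleton] at hp hp'
    have hσ : σ ≠ 0 := by rcases hp with h | h <;> rw [h] <;> decide
    have he' : (Pi.single j σ : Fin L → ℤ) = Pi.single j' σ' := he
    have hj : j = j' := by
      by_contra hne
      have := congrFun he' j
      rw [Pi.single_eq_same, Pi.single_eq_of_ne hne] at this
      exact hσ this
    subst hj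
    have := congrFun he' j
    rw [Pi.single_eq_same, Pi.single_eq_same] at this
    rw [this]
  · intro s hs
    rw [Finset.mem_coe, Finset.mem_filter] at hs
    obtain ⟨hs1, hs2⟩ := hs
    rw [supp, Finset.card_eq_one] at hs2
    obtain ⟨j, hj⟩ := hs2
    refine ⟨(j, s j), ?_, ?_⟩
    · simp only [Finset.coe_product, Set.mem_prod, Finset.mem_coe, Finset.mem_univ, true_and, Finset.mem_insert,
        Finset.mem_singleton]
      rw [signs, Fintype.mem_piFinset] at hs1
      have h2 := hs1 j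
      simp only [Finset.mem_insert, Finset.mem_singleton] at h2
      have h3 : s j ≠ 0 := by
        have : j ∈ univ.filter (fun j => s j ≠ 0) := by rw [hj]; simp
        exact (Finset.mem_filter.1 this).2
      tauto
    · funext k
      by_cases hk : k = j
      · subst hk
        simp
      · simp only [Pi.single_eq_of_ne hk]
        by_contra hne
        have : k ∈ univ.filter (fun j => s j ≠ 0) := by
          rw [Finset.mem_filter]
          exact ⟨Finset.mem_univ _, fun h0 => hne h0.symm⟩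
        rw [hj, Finset.mem_singleton] at this
        exact hk this
  · rintro ⟨j, σ⟩ _
    rfl

/-- splitting of the sum over all sign vectors -/
lemma sum_signs {L : ℕ} (f : (Fin L → ℤ) → ℂ) :
    ∑ s ∈ signs L, f s = f 0 + ∑ j : Fin L, (f (Pi.single j 1) + f (Pi.single j (-1))) +
      ∑ s ∈ (signs L).filter (fun s => 2 ≤ supp s), f s := by
  classical
  rw [← sum_supp_one f]
  have h1 : signs L = {0} ∪ ((signs L).filter (fun s => supp s = 1)) ∪
      ((signs L).filter (fun s => 2 ≤ supp s)) := by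
    ext s
    simp only [Finset.mem_union, Finset.mem_singleton, Finset.mem_filter]
    constructor
    · intro hs
      rcases Nat.lt_or_ge (supp s) 2 with h | h
      · left
        rcases Nat.eq_zero_or_pos (supp s) with h0 | h0
        · left
          exact (supp_zero_iff s).1 h0
        · right
          exact ⟨hs, by omega⟩
      · right
        exact ⟨hs, h⟩
    · rintro ((h | h) | h)
      · rw [h]
        exact zero_mem_signs L
      · exact h.1
      · exact h.1
  have hd1 : Disjoint ({0} ∪ ((signs L).filter (fun s => supp s = 1)))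
      ((signs L).filter (fun s => 2 ≤ supp s)) := by
    rw [Finset.disjoint_left]
    intro s hs hs'
    rw [Finset.mem_union, Finset.mem_singleton, Finset.mem_filter] at hs
    rw [Finset.mem_filter] at hs'
    rcases hs with h | h
    · have := (supp_zero_iff s).2 h
      omega
    · omega
  have hd2 : Disjoint ({0} : Finset (Fin L → ℤ)) ((signs L).filter (fun s => supp s = 1)) := by
    rw [Finset.disjoint_left]
    intro s hs hs'
    rw [Finset.mem_singleton] at hs
    rw [Finset.mem_filter] at hs'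
    have := (supp_zero_iff s).2 hs
    omega
  conv_lhs => rw [h1]
  rw [Finset.sum_union hd1, Finset.sum_union hd2, Finset.sum_singleton]

lemma integ_GG {d L : ℕ} (h : Fin L → Fin d → ℤ) (c : Fin L → ℂ) :
    Integrable (fun z => (GG h c z : ℂ)) (mu d) := by
  simp_rw [GG_eq]
  exact integrable_finsetSum _ fun s _ => (integ_EE _).const_mul _

lemma integ_GGr {d L : ℕ} (h : Fin L → Fin d → ℤ) (c : Fin L → ℂ) :
    Integrable (fun z => GG h c z) (mu d) := by
  have := (integ_GG h c).re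
  simpa using this

lemma int_GG {d L : ℕ} (hd : 0 < d) (h : Fin L → Fin d → ℤ) (c : Fin L → ℂ)
    (hs : ∀ s ∈ signs L, s ≠ 0 → ∀ i, ∑ j, s j * h j i ≠ 0) :
    ∫ z, GG h c z ∂(mu d) = 1 := by
  have h1 : ∫ z, (GG h c z : ℂ) ∂(mu d) = 1 := by
    simp_rw [GG_eq]
    rw [integral_finsetSum _ fun s _ => (integ_EE _).const_mul _]
    rw [Finset.sum_eq_single_of_mem 0 (zero_mem_signs L)]
    · rw [integral_const_mul, cb_zero]
      simp_rw [EE_zero]
      simp [cf]
    · intro s hs1 hs2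
      rw [integral_const_mul, int_EE hd, mul_zero]
      intro i
      rw [cb_apply]
      exact hs s hs1 hs2 i
  have h2 : ∫ z, (GG h c z : ℂ) ∂(mu d) = ((∫ z, GG h c z ∂(mu d) : ℝ) : ℂ) := integral_ofReal
  rw [h2] at h1
  exact_mod_cast h1

lemma int_FG {d L N : ℕ} {a : Fin d → ℕ} (hd : 0 < d) (hN : 0 < N) (h : Fin L → Fin d → ℤ) (c : Fin L → ℂ)
    (ha : ∀ j, (N : ℤ) ∣ ∑ i, h j i * (a i : ℤ))
    (hs : ∀ s ∈ signs L, s ≠ 0 → ∀ i, ∑ j, s j * h j i ≠ 0) :
    ∫ z, (FF N a z : ℂ) * (GG h c z : ℂ) ∂(mu d) =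
      ∑ s ∈ signs L, if s = 0 then 0 else (∏ j, cf (c j) (s j)) * AA (cb h s) := by
  classical
  have h1 : ∀ z, (FF N a z : ℂ) * (GG h c z : ℂ) = ∑ s ∈ signs L, (∏ j, cf (c j) (s j)) *
      ((FF N a z : ℂ) * EE (cb h s) z) := by
    intro z
    rw [GG_eq, Finset.mul_sum]
    refine Finset.sum_congr rfl fun s _ => ?_
    ring
  simp_rw [h1]
  rw [integral_finsetSum _ fun s _ => (integ_FE N a _).const_mul _]
  refine Finset.sum_congr rfl fun s hs1 => ?_
  rw [integral_const_mul]
  split_ifs with h0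
  · rw [h0, cb_zero, int_FE_zero hN, mul_zero]
  · rw [int_FE_ne hd hN]
    · intro i
      rw [cb_apply]
      exact hs s hs1 h0 i
    · have h2 : ∑ i, cb h s i * (a i : ℤ) = ∑ j, s j * ∑ i, h j i * (a i : ℤ) := by
        simp_rw [cb_apply, Finset.sum_mul, Finset.mul_sum]
        rw [Finset.sum_comm]
        refine Finset.sum_congr rfl fun j _ => Finset.sum_congr rfl fun i _ => ?_
        ring
      rw [h2]
      exact Finset.dvd_sum fun j _ => (ha j).mul_left _

lemma abs_int_FG {d L N : ℕ} {a : Fin d → ℕ} {D : ℝ} (hd : 0 < d) (hD : DiscLE N a D)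
    (h : Fin L → Fin d → ℤ) (c : Fin L → ℂ) (hc : ∀ j, ‖c j‖ = 1)
    (hs : ∀ s ∈ signs L, s ≠ 0 → ∀ i, ∑ j, s j * h j i ≠ 0) :
    ‖∫ z, (FF N a z : ℂ) * (GG h c z : ℂ) ∂(mu d)‖ ≤ 2 ^ d * D := by
  have h1 : ‖∫ z, (FF N a z : ℂ) * (GG h c z : ℂ) ∂(mu d)‖ ≤ ∫ z, (2 ^ d * D) * GG h c z ∂(mu d) := by
    refine norm_integral_le_of_norm_le ((integ_GGr h c).const_mul _) (Filter.Eventually.of_forall fun z => ?_)
    rw [norm_mul, Complex.norm_real, Complex.norm_real, Real.norm_eq_abs, Real.norm_eq_abs,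
      abs_of_nonneg (GG_nonneg h c hc z)]
    exact mul_le_mul_of_nonneg_right (FF_le hD z) (GG_nonneg h c hc z)
  rw [integral_const_mul, int_GG hd h c hs, mul_one] at h1
  exact h1

theorem t_ANA : V5LD.S_ANA := by
  intro d N L a D h hd hN hD ha hs
  classical
  have hne : ∀ j i, h j i ≠ 0 := by
    intro j i
    have h1 := hs (Pi.single j 1) (single_mem_signs j 1 (Or.inl rfl)) (by
      intro h0
      have := congrFun h0 j
      rw [Pi.single_eq_same, Pi.zero_apply] at this
      exact absurd this (by decide)) i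
    rw [← cb_apply, cb_single, one_smul] at h1
    exact h1
  have hA : ∀ j, AA (h j) ≠ 0 := by
    intro j
    rw [← norm_ne_zero_iff, norm_AA]
    refine (Finset.prod_pos fun i _ => ?_).ne'
    have : 0 < |(h j i : ℝ)| := abs_pos.2 (by exact_mod_cast hne j i)
    have := Real.pi_pos
    positivity
  set c : Fin L → ℂ := fun j => (starRingEnd ℂ) (AA (h j)) / (‖AA (h j)‖ : ℂ) with hcdef
  have hc : ∀ j, ‖c j‖ = 1 := by
    intro j
    rw [hcdef]
    simp only [norm_div, RCLike.norm_conj, Complex.norm_real, norm_norm]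
    exact div_self (norm_ne_zero_iff.2 (hA j))
  have hcA : ∀ j, c j * AA (h j) = (‖AA (h j)‖ : ℂ) := by
    intro j
    have hn : ((‖AA (h j)‖ : ℝ) : ℂ) ≠ 0 := by exact_mod_cast norm_ne_zero_iff.2 (hA j)
    rw [hcdef]
    simp only
    rw [div_mul_eq_mul_div, mul_comm ((starRingEnd ℂ) _), Complex.mul_conj, div_eq_iff hn,
      Complex.normSq_eq_norm_sq]
    push_cast
    ring
  have e1 := int_FG (a := a) hd hN h c ha hs
  rw [sum_signs, if_pos rfl, zero_add] at e1
  have e2 : ∀ j : Fin L, ((if (Pi.single j 1 : Fin L → ℤ) = 0 then 0 else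
      (∏ k, cf (c k) ((Pi.single j 1 : Fin L → ℤ) k)) * AA (cb h (Pi.single j 1))) +
      (if (Pi.single j (-1) : Fin L → ℤ) = 0 then 0 else
      (∏ k, cf (c k) ((Pi.single j (-1) : Fin L → ℤ) k)) * AA (cb h (Pi.single j (-1)))) : ℂ) =
      (‖AA (h j)‖ : ℂ) := by
    intro j
    have hz1 : (Pi.single j 1 : Fin L → ℤ) ≠ 0 := by
      intro h0
      have := congrFun h0 j
      rw [Pi.single_eq_same, Pi.zero_apply] at this
      exact absurd this (by decide)
    have hz2 : (Pi.single j (-1) : Fin L → ℤ) ≠ 0 := by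
      intro h0
      have := congrFun h0 j
      rw [Pi.single_eq_same, Pi.zero_apply] at this
      exact absurd this (by decide)
    rw [if_neg hz1, if_neg hz2, prod_cf_single, prod_cf_single, cb_single, cb_single, one_smul,
      neg_smul, one_smul, AA_neg]
    have h3 : cf (c j) 1 = 1 / 2 * c j := by simp [cf]
    have h4 : cf (c j) (-1) = 1 / 2 * (starRingEnd ℂ) (c j) := by
      rw [cf, if_neg (by decide), if_neg (by decide)]
    have h5 : (starRingEnd ℂ) (c j) * (starRingEnd ℂ) (AA (h j)) = (‖AA (h j)‖ : ℂ) := by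
      rw [← map_mul, hcA, Complex.conj_ofReal]
    rw [h3, h4, mul_assoc, mul_assoc, hcA, h5]
    ring
  rw [Finset.sum_congr rfl fun j _ => e2 j] at e1
  have e3 := abs_int_FG hd hD h c hc hs
  have e4 : ∑ j, ∏ i, (1 / (2 * Real.pi * |(h j i : ℝ)|)) = ‖∑ j, ((‖AA (h j)‖ : ℝ) : ℂ)‖ := by
    rw [← Complex.ofReal_sum, Complex.norm_real, Real.norm_eq_abs,
      abs_of_nonneg (Finset.sum_nonneg fun j _ => norm_nonneg _)]
    exact Finset.sum_congr rfl fun j _ => (norm_AA _).symm
  have e5 : ∑ j, ((‖AA (h j)‖ : ℝ) : ℂ) = ∫ z, (FF N a z : ℂ) * (GG h c z : ℂ) ∂(mu d) -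
      ∑ s ∈ (signs L).filter (fun s => 2 ≤ supp s),
        (if s = 0 then 0 else (∏ j, cf (c j) (s j)) * AA (cb h s)) := by
    rw [e1]
    ring
  rw [e4, e5]
  refine (norm_sub_le _ _).trans (add_le_add e3 ?_)
  refine (norm_sum_le _ _).trans (Finset.sum_le_sum fun s hs2 => ?_)
  rw [Finset.mem_filter] at hs2
  have hs0 : s ≠ 0 := by
    intro h0
    have := (supp_zero_iff s).2 h0
    omega
  rw [if_neg hs0, norm_mul, norm_prod_cf c hc, norm_AA]
  refine le_of_eq ?_
  congr 1
  refine Finset.prod_congr rfl fun i _ => ?_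
  rw [cb_apply]

end V5LD.Ana

/-- job ANA -/
theorem V5LD.t_ANA : V5LD.S_ANA := V5LD.Ana.t_ANA
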